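import Pool.Agent.Helper67.NO.St1

set_option autoImplicit false

namespace Pool.Agent.Helper32.NO

open Pool.Agent.Helper67.NO Matrix
open scoped Matrix.Norms.Frobenius ContDiff Topology

private theorem gen_der {B : Type} [NormedRing B] [NormedAlgebra ℝ B] (e f : ℝ → B)
    (E x y : B) (he : HasDerivAt e E 0) (hf : HasDerivAt f (-E) 0) (e0 : e 0 = 1)
    (f0 : f 0 = 1) :
    HasDerivAt (fun t : ℝ => f t * x * e t * (e t * y * f t))
      ((-E * x + x * E) * y + x * (E * y + y * -E)) 0 := by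
  have k1 := (hf.mul_const x).mul he
  have k2 := (he.mul_const y).mul hf
  have k3 := k1.mul k2
  simp only [e0, f0, one_mul, mul_one, Pi.mul_apply] at k3
  exact k3

private theorem gen_exp {B : Type} [NormedRing B] [NormedAlgebra ℝ B] [CompleteSpace B]
    (E : B) : HasDerivAt (fun t : ℝ => NormedSpace.exp (t • E)) E 0 := by
  have h := hasDerivAt_exp_smul_const (𝕂 := ℝ) E (0 : ℝ)
  simpa using h

section Gen

variable {n : Type} [Fintype n] [DecidableEq n]

/-- real part of the trace as a continuous real-linear map -/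
private noncomputable def reTr : Matrix n n ℂ →L[ℝ] ℝ :=
  Complex.reCLM.comp (LinearMap.toContinuousLinearMap (Matrix.traceLinearMap n ℝ ℂ))

private theorem reTr_apply (x : Matrix n n ℂ) : reTr x = (trace x).re := rfl

private theorem conj_exp (E : Matrix n n ℂ) (hE : E.IsHermitian) (t : ℝ) :
    (NormedSpace.exp (t • E))ᴴ = NormedSpace.exp (t • E) ∧
    (NormedSpace.exp (t • (-E)))ᴴ = NormedSpace.exp (t • (-E)) := by
  have h1 : Eᴴ = E := hE
  constructor
  · rw [← Matrix.exp_conjTranspose, Matrix.conjTranspose_smul, h1]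
    simp
  · rw [← Matrix.exp_conjTranspose, Matrix.conjTranspose_smul, Matrix.conjTranspose_neg, h1]
    simp

private theorem der_exp (E : Matrix n n ℂ) :
    HasDerivAt (fun t : ℝ => NormedSpace.exp (t • E)) E 0 := gen_exp E

private theorem der_sq (E a : Matrix n n ℂ) (hE : E.IsHermitian) :
    HasDerivAt (fun t : ℝ => (trace ((NormedSpace.exp (t • E) * a * NormedSpace.exp (t • (-E)))ᴴ *
      (NormedSpace.exp (t • E) * a * NormedSpace.exp (t • (-E))))).re)
      (2 * (trace (aᴴ * br E a)).re) 0 := by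
  have h1 := der_exp E
  have h2 := der_exp (-E)
  have h3 : HasDerivAt (fun t : ℝ => NormedSpace.exp (t • (-E)) * aᴴ * NormedSpace.exp (t • E) *
      (NormedSpace.exp (t • E) * a * NormedSpace.exp (t • (-E))))
      ((-E * aᴴ + aᴴ * E) * a + aᴴ * (E * a + a * -E)) 0 :=
    gen_der _ _ E aᴴ a h1 h2 (by simp) (by simp)
  have h4 := (reTr (n := n)).hasFDerivAt.comp_hasDerivAt (0 : ℝ) h3
  have h5 : reTr ((-E * aᴴ + aᴴ * E) * a + aᴴ * (E * a + a * -E))
      = 2 * (trace (aᴴ * br E a)).re := by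
    rw [reTr_apply]
    have e1 : trace ((-E * aᴴ + aᴴ * E) * a + aᴴ * (E * a + a * -E))
        = 2 * trace (aᴴ * br E a) := by
      unfold br
      have c2 : trace (E * (aᴴ * a)) = trace (aᴴ * (a * E)) := by
        rw [Matrix.trace_mul_comm, Matrix.mul_assoc]
      simp only [Matrix.add_mul, Matrix.mul_add, Matrix.mul_sub,
        Matrix.neg_mul, Matrix.mul_neg, Matrix.trace_add, Matrix.trace_sub, Matrix.trace_neg,
        Matrix.mul_assoc]
      rw [c2]
      ring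
    rw [e1]
    simp
  have h4' : HasDerivAt (fun t : ℝ => reTr (NormedSpace.exp (t • (-E)) * aᴴ
      * NormedSpace.exp (t • E) * (NormedSpace.exp (t • E) * a * NormedSpace.exp (t • (-E)))))
      (2 * (trace (aᴴ * br E a)).re) 0 := by
    rw [← h5]
    exact h4
  refine h4'.congr_of_eventuallyEq (Filter.Eventually.of_forall fun t => ?_)
  obtain ⟨g1, g2⟩ := conj_exp E hE t
  simp only [reTr_apply, Matrix.conjTranspose_mul, g1, g2, Matrix.mul_assoc]

end Gen

private theorem fsq {m n : Type} [Fintype m] [Fintype n] (X : Matrix m n ℂ) :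
    ‖X‖ ^ 2 = ∑ i, ∑ j, ‖X i j‖ ^ 2 := by
  rw [Matrix.frobenius_norm_def, ← Real.sqrt_eq_rpow, Real.sq_sqrt (by positivity)]
  simp

section Chains

variable {ι κ : Type} [Fintype ι] [DecidableEq ι] [Fintype κ] [DecidableEq κ]

private theorem closed_Ch (lev : κ → ℕ) (A : Matrix ι ι ℂ) :
    IsClosed {z : Matrix (ι ⊕ κ) (ι ⊕ κ) ℂ × Matrix (ι ⊕ κ) (ι ⊕ κ) ℂ | Ch lev A z.1 z.2} := by
  unfold Ch
  refine IsClosed.and ?_ (IsClosed.and ?_ ?_)
  · unfold Low
    simp only [Set.setOf_forall]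
    refine isClosed_iInter fun p => isClosed_iInter fun q => ?_
    by_cases h : lv lev q = lv (ι := ι) lev p + 1
    · simp [h]
    · have : {z : Matrix (ι ⊕ κ) (ι ⊕ κ) ℂ × Matrix (ι ⊕ κ) (ι ⊕ κ) ℂ |
          z.1 p q ≠ 0 → lv lev q = lv lev p + 1} = {z | z.1 p q = 0} := by
        ext z
        simp [h]
      rw [this]
      exact isClosed_eq (by fun_prop) continuous_const
  · unfold Rai
    simp only [Set.setOf_forall]
    refine isClosed_iInter fun p => isClosed_iInter fun q => ?_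
    by_cases h : lv lev p = lv (ι := ι) lev q + 1
    · simp [h]
    · have : {z : Matrix (ι ⊕ κ) (ι ⊕ κ) ℂ × Matrix (ι ⊕ κ) (ι ⊕ κ) ℂ |
          z.2 p q ≠ 0 → lv lev p = lv lev q + 1} = {z | z.2 p q = 0} := by
        ext z
        simp [h]
      rw [this]
      exact isClosed_eq (by fun_prop) continuous_const
  · unfold br
    refine isClosed_eq ?_ continuous_const
    exact (continuous_fst.matrix_mul continuous_snd).sub
      (continuous_snd.matrix_mul continuous_fst)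

private theorem exists_min (lev : κ → ℕ) (A : Matrix ι ι ℂ)
    (hne : ∃ a b : Matrix (ι ⊕ κ) (ι ⊕ κ) ℂ, Ch lev A a b) :
    ∃ a b : Matrix (ι ⊕ κ) (ι ⊕ κ) ℂ, Ch lev A a b ∧
      ∀ a' b' : Matrix (ι ⊕ κ) (ι ⊕ κ) ℂ, Ch lev A a' b' → nsq a b ≤ nsq a' b' := by
  obtain ⟨a0, b0, h0⟩ := hne
  let f : Matrix (ι ⊕ κ) (ι ⊕ κ) ℂ × Matrix (ι ⊕ κ) (ι ⊕ κ) ℂ → ℝ := fun z => nsq z.1 z.2
  have hf : Continuous f := by
    show Continuous fun z : Matrix (ι ⊕ κ) (ι ⊕ κ) ℂ × Matrix (ι ⊕ κ) (ι ⊕ κ) ℂ =>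
      ‖z.1‖ ^ 2 + ‖z.2‖ ^ 2
    exact ((continuous_norm.comp continuous_fst).pow 2).add
      ((continuous_norm.comp continuous_snd).pow 2)
  let T : Set (Matrix (ι ⊕ κ) (ι ⊕ κ) ℂ × Matrix (ι ⊕ κ) (ι ⊕ κ) ℂ) :=
    {z | Ch lev A z.1 z.2} ∩ {z | f z ≤ nsq a0 b0}
  have hTc : IsClosed T := (closed_Ch lev A).inter (isClosed_le hf continuous_const)
  have hTb : Bornology.IsBounded T := by
    rw [isBounded_iff_forall_norm_le]
    refine ⟨Real.sqrt (nsq a0 b0), ?_⟩
    intro z hz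
    have h1 : ‖z.1‖ ^ 2 + ‖z.2‖ ^ 2 ≤ nsq a0 b0 := hz.2
    rw [Prod.norm_def]
    refine max_le (Real.le_sqrt_of_sq_le ?_) (Real.le_sqrt_of_sq_le ?_)
    · have := sq_nonneg ‖z.2‖
      linarith
    · have := sq_nonneg ‖z.1‖
      linarith
  have hTk : IsCompact T := Metric.isCompact_of_isClosed_isBounded hTc hTb
  have hTn : T.Nonempty := ⟨(a0, b0), h0, show f (a0, b0) ≤ nsq a0 b0 from le_refl _⟩
  obtain ⟨z, hz, hmin⟩ := hTk.exists_isMinOn hTn hf.continuousOn
  refine ⟨z.1, z.2, hz.1, ?_⟩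
  intro a' b' h'
  by_cases hle : nsq a' b' ≤ nsq a0 b0
  · have h3 : (a', b') ∈ T := ⟨h', hle⟩
    have h4 := isMinOn_iff.mp hmin (a', b') h3
    exact h4
  · push Not at hle
    have h2 : f z ≤ nsq a0 b0 := hz.2
    exact le_trans h2 hle.le

private theorem rho_eq (lev : κ → ℕ) (A : Matrix ι ι ℂ) (a b : Matrix (ι ⊕ κ) (ι ⊕ κ) ℂ)
    (h : Ch lev A a b)
    (hmin : ∀ a' b' : Matrix (ι ⊕ κ) (ι ⊕ κ) ℂ, Ch lev A a' b' → nsq a b ≤ nsq a' b') :
    rho lev A = nsq a b := by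
  unfold rho
  refine le_antisymm ?_ ?_
  · refine csInf_le ⟨0, ?_⟩ ⟨a, b, h, rfl⟩
    rintro r ⟨a', b', _, rfl⟩
    unfold nsq
    positivity
  · refine le_csInf ⟨_, a, b, h, rfl⟩ ?_
    rintro r ⟨a', b', h', rfl⟩
    exact hmin a' b' h'

private theorem rank_smul' {m : Type} [Fintype m] [DecidableEq m] (c : ℂ) (hc : c ≠ 0)
    (B : Matrix m m ℂ) : (c • B).rank = B.rank := by
  have h : c • B = B * (c • (1 : Matrix m m ℂ)) := by simp
  rw [h, Matrix.rank_mul_eq_left_of_isUnit_det]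
  rw [Matrix.det_smul, Matrix.det_one, mul_one]
  exact (isUnit_iff_ne_zero.mpr hc).pow _

private theorem RT_smul (lev : κ → ℕ) (A : Matrix ι ι ℂ) (c : ℂ) (hc : c ≠ 0)
    (h : RT lev A) : RT lev (c • A) := by
  intro i
  rw [smul_pow, rank_smul' _ (pow_ne_zero _ hc)]
  exact h i

private theorem Ch_smul (h2 : StBDA) (lev : κ → ℕ) (A : Matrix ι ι ℂ)
    (a b : Matrix (ι ⊕ κ) (ι ⊕ κ) ℂ) (s : ℂ) (h : Ch lev A a b) :
    Ch lev ((s ^ 2) • A) (s • a) (s • b) := by
  obtain ⟨ha, hb, hab⟩ := h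
  refine ⟨?_, ?_, ?_⟩
  · intro p q hpq
    apply ha p q
    intro h0
    apply hpq
    simp [h0]
  · intro p q hpq
    apply hb p q
    intro h0
    apply hpq
    simp [h0]
  · have e := (h2 ι κ).2.2.1 (s ^ 2) A 0
    rw [smul_zero] at e
    rw [← e, ← hab]
    unfold br
    simp only [Matrix.smul_mul, Matrix.mul_smul, smul_smul, smul_sub]
    rw [pow_two]

private theorem nsq_smul {n : Type} [Fintype n] (s : ℂ) (a b : Matrix n n ℂ) :
    nsq (s • a) (s • b) = ‖s‖ ^ 2 * nsq a b := by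
  unfold nsq
  rw [norm_smul, norm_smul]
  ring

private theorem rho_nonneg (lev : κ → ℕ) (A : Matrix ι ι ℂ) : 0 ≤ rho lev A := by
  unfold rho
  refine Real.sInf_nonneg ?_
  rintro r ⟨a', b', _, rfl⟩
  unfold nsq
  positivity

private theorem rho_le (lev : κ → ℕ) (A : Matrix ι ι ℂ) (a b : Matrix (ι ⊕ κ) (ι ⊕ κ) ℂ)
    (h : Ch lev A a b) : rho lev A ≤ nsq a b := by
  unfold rho
  refine csInf_le ⟨0, ?_⟩ ⟨a, b, h, rfl⟩
  rintro r ⟨a', b', _, rfl⟩
  unfold nsq
  positivity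

private theorem rho_smul_le (h2 : StBDA) (lev : κ → ℕ) (A : Matrix ι ι ℂ) (c : ℂ) (hc : c ≠ 0) :
    rho lev (c • A) ≤ ‖c‖ * rho lev A := by
  obtain ⟨s, hs⟩ := IsAlgClosed.exists_pow_nat_eq c (n := 2) (by norm_num)
  have hs0 : s ≠ 0 := by
    rintro rfl
    apply hc
    rw [← hs]
    simp
  have hn : ‖s‖ ^ 2 = ‖c‖ := by rw [← hs, norm_pow]
  by_cases hne : ∃ a b : Matrix (ι ⊕ κ) (ι ⊕ κ) ℂ, Ch lev A a b
  · obtain ⟨a, b, h, hmin⟩ := exists_min lev A hne
    rw [rho_eq lev A a b h hmin, ← hn, ← nsq_smul]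
    refine rho_le lev _ _ _ ?_
    rw [← hs]
    exact Ch_smul h2 lev A a b s h
  · have hne' : ¬ ∃ a b : Matrix (ι ⊕ κ) (ι ⊕ κ) ℂ, Ch lev (c • A) a b := by
      rintro ⟨a, b, h⟩
      apply hne
      refine ⟨s⁻¹ • a, s⁻¹ • b, ?_⟩
      have := Ch_smul h2 lev (c • A) a b s⁻¹ h
      rw [smul_smul, inv_pow, hs, inv_mul_cancel₀ hc, one_smul] at this
      exact this
    have e : rho lev (c • A) = 0 := by
      unfold rho
      have : {r : ℝ | ∃ a b : Matrix (ι ⊕ κ) (ι ⊕ κ) ℂ, Ch lev (c • A) a b ∧ r = nsq a b} = ∅ := by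
        ext r
        simp only [Set.mem_setOf_eq, Set.mem_empty_iff_false, iff_false]
        rintro ⟨a, b, h, _⟩
        exact hne' ⟨a, b, h⟩
      rw [this, Real.sInf_empty]
    rw [e]
    exact mul_nonneg (norm_nonneg _) (rho_nonneg lev A)

private theorem rho_zero (h2 : StBDA) (lev : κ → ℕ) : rho lev (0 : Matrix ι ι ℂ) = 0 := by
  refine le_antisymm ?_ (rho_nonneg lev _)
  have h : Ch lev (0 : Matrix ι ι ℂ) (0 : Matrix (ι ⊕ κ) (ι ⊕ κ) ℂ) 0 := by
    refine ⟨fun p q h => absurd rfl h, fun p q h => absurd rfl h, ?_⟩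
    rw [(h2 ι κ).2.2.2.2.1]
    unfold br
    simp
  have := rho_le lev _ _ _ h
  have e : nsq (0 : Matrix (ι ⊕ κ) (ι ⊕ κ) ℂ) 0 = 0 := by
    unfold nsq
    simp
  rw [e] at this
  exact this

private theorem rho_smul (h2 : StBDA) (lev : κ → ℕ) (A : Matrix ι ι ℂ) (c : ℂ) :
    rho lev (c • A) = ‖c‖ * rho lev A := by
  by_cases hc : c = 0
  · subst hc
    rw [zero_smul, norm_zero, zero_mul]
    exact rho_zero h2 lev
  · refine le_antisymm (rho_smul_le h2 lev A c hc) ?_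
    have h := rho_smul_le h2 lev (c • A) c⁻¹ (inv_ne_zero hc)
    rw [smul_smul, inv_mul_cancel₀ hc, one_smul, norm_inv] at h
    have hn : 0 < ‖c‖ := norm_pos_iff.mpr hc
    calc ‖c‖ * rho lev A ≤ ‖c‖ * (‖c‖⁻¹ * rho lev (c • A)) :=
          mul_le_mul_of_nonneg_left h hn.le
      _ = rho lev (c • A) := by
          rw [← mul_assoc, mul_inv_cancel₀ hn.ne', one_mul]

end Chains

theorem pMIN (h1 : StBL) (h2 : StBDA) (h3 : StALG) (h4 : StLVL) (h5 : StCHN) : StMIN := by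
  intro ι κ _ _ _ _ lev
  have hBL := h1 ι κ lev
  have hBD := h2 ι κ
  have hAL := h3 (ι ⊕ κ)
  have hLV := h4 κ lev
  refine ⟨?_, rho_smul h2 lev, ?_⟩
  · intro A hA
    obtain ⟨a0, b0, h0, _⟩ := h5 ι κ lev A hA
    obtain ⟨a, b, h, hmin⟩ := exists_min lev A ⟨a0, b0, h0⟩
    refine ⟨a, b, h, ?_, rho_eq lev A a b h hmin⟩
    obtain ⟨ha, hb, hab⟩ := h
    obtain ⟨hh, y, hy, hm, hhh, hyh⟩ := hBL.2.2.2.2.2.2.1 a b ha hb
    refine ⟨hh, ?_⟩
    -- the variation
    have hE : (bd (0 : Matrix ι ι ℂ) y).IsHermitian := by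
      unfold Matrix.IsHermitian
      rw [(hBD.2.1 0 y).1, Matrix.conjTranspose_zero, hyh.eq]
    have hexp : ∀ z : Matrix κ κ ℂ, NormedSpace.exp (bd (0 : Matrix ι ι ℂ) z)
        = bd 1 (NormedSpace.exp z) := by
      intro z
      rw [(hBD.2.1 0 z).2.2.2, NormedSpace.exp_zero]
    have hts : ∀ (t : ℝ) (z : Matrix κ κ ℂ), t • bd (0 : Matrix ι ι ℂ) z = bd 0 ((t : ℂ) • z) := by
      intro t z
      have := hBD.2.2.1 (t : ℂ) 0 z
      rw [smul_zero] at this
      rw [← this]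
      rfl
    have hch : ∀ t : ℝ, Ch lev A
        (NormedSpace.exp (t • bd (0 : Matrix ι ι ℂ) y) * a
          * NormedSpace.exp (t • (-bd (0 : Matrix ι ι ℂ) y)))
        (NormedSpace.exp (t • bd (0 : Matrix ι ι ℂ) y) * b
          * NormedSpace.exp (t • (-bd (0 : Matrix ι ι ℂ) y))) := by
      intro t
      have e1 : NormedSpace.exp (t • bd (0 : Matrix ι ι ℂ) y)
          = bd 1 (NormedSpace.exp ((t : ℂ) • y)) := by rw [hts, hexp]
      have e2 : NormedSpace.exp (t • (-bd (0 : Matrix ι ι ℂ) y))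
          = bd 1 (NormedSpace.exp (-((t : ℂ) • y))) := by
        rw [smul_neg, hts, (hBD.2.1 0 _).2.1, neg_zero, hexp]
      have e3 : bd (1 : Matrix ι ι ℂ) (NormedSpace.exp (-((t : ℂ) • y)))
          * bd 1 (NormedSpace.exp ((t : ℂ) • y)) = 1 := by
        rw [(hBD.1 _ _ _ _).1, Matrix.mul_one, ← hBD.2.2.2.1]
        have hc : Commute (-((t : ℂ) • y)) ((t : ℂ) • y) := (Commute.refl ((t : ℂ) • y)).neg_left
        rw [← Matrix.exp_add_of_commute _ _ hc, neg_add_cancel, NormedSpace.exp_zero]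
      rw [e1, e2]
      have l1 : Lvl lev (NormedSpace.exp ((t : ℂ) • y)) := (hLV.2.2.2.2.1 _ (hLV.2.2.2.1 _ _ hy)).2.2
      have l2 : Lvl lev (NormedSpace.exp (-((t : ℂ) • y))) :=
        (hLV.2.2.2.2.1 _ (hLV.2.2.2.2.1 _ (hLV.2.2.2.1 _ _ hy)).1).2.2
      generalize NormedSpace.exp ((t : ℂ) • y) = g at *
      generalize NormedSpace.exp (-((t : ℂ) • y)) = g' at *
      refine ⟨?_, ?_, ?_⟩
      · exact (hBL.2.2.2.1 _ ((hBL.2.2.2.1 a ha 1 g l1).1) 1 g' l2).2
      · exact (hBL.2.2.2.2.1 _ ((hBL.2.2.2.2.1 b hb 1 g l1).1) 1 g' l2).2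
      · have e4 : br (bd 1 g * a * bd 1 g') (bd 1 g * b * bd 1 g')
            = bd 1 g * br a b * bd 1 g' := by
          unfold br
          have k1 : bd 1 g * a * bd 1 g' * (bd 1 g * b * bd 1 g')
              = bd 1 g * (a * b) * bd 1 g' := by
            calc bd 1 g * a * bd 1 g' * (bd 1 g * b * bd 1 g')
                = bd 1 g * a * (bd 1 g' * bd 1 g) * b * bd 1 g' := by
                  simp only [Matrix.mul_assoc]
              _ = bd 1 g * (a * b) * bd 1 g' := by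
                  rw [e3, Matrix.mul_one]
                  simp only [Matrix.mul_assoc]
          have k2 : bd 1 g * b * bd 1 g' * (bd 1 g * a * bd 1 g')
              = bd 1 g * (b * a) * bd 1 g' := by
            calc bd 1 g * b * bd 1 g' * (bd 1 g * a * bd 1 g')
                = bd 1 g * b * (bd 1 g' * bd 1 g) * a * bd 1 g' := by
                  simp only [Matrix.mul_assoc]
              _ = bd 1 g * (b * a) * bd 1 g' := by
                  rw [e3, Matrix.mul_one]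
                  simp only [Matrix.mul_assoc]
          rw [k1, k2, ← Matrix.sub_mul, ← Matrix.mul_sub]
        rw [e4, hab, (hBD.1 _ _ _ _).1, (hBD.1 _ _ _ _).1]
        simp
    -- the derivative
    have hnsq : ∀ u v : Matrix (ι ⊕ κ) (ι ⊕ κ) ℂ, nsq u v = (trace (uᴴ * u)).re + (trace (vᴴ * v)).re := by
      intro u v
      have := hAL.2.2.2.1 u v
      unfold ip at this
      have h' := congrArg Complex.re this
      simpa using h'.symm
    have hder := (der_sq (bd (0 : Matrix ι ι ℂ) y) a hE).add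
      (der_sq (bd (0 : Matrix ι ι ℂ) y) b hE)
    have hloc : IsLocalMin (fun t : ℝ => (trace ((NormedSpace.exp (t • bd (0 : Matrix ι ι ℂ) y) * a
          * NormedSpace.exp (t • (-bd (0 : Matrix ι ι ℂ) y)))ᴴ *
          (NormedSpace.exp (t • bd (0 : Matrix ι ι ℂ) y) * a
          * NormedSpace.exp (t • (-bd (0 : Matrix ι ι ℂ) y))))).re
        + (trace ((NormedSpace.exp (t • bd (0 : Matrix ι ι ℂ) y) * b
          * NormedSpace.exp (t • (-bd (0 : Matrix ι ι ℂ) y)))ᴴ *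
          (NormedSpace.exp (t • bd (0 : Matrix ι ι ℂ) y) * b
          * NormedSpace.exp (t • (-bd (0 : Matrix ι ι ℂ) y))))).re) 0 := by
      refine Filter.Eventually.of_forall fun t => ?_
      have h6 := hmin _ _ (hch t)
      rw [hnsq, hnsq] at h6
      simpa using h6
    have hz := hloc.hasDerivAt_eq_zero hder
    have hz2 : (trace (bd (0 : Matrix ι ι ℂ) y * mom a b)).re = 0 := by
      rw [← hAL.2.2.2.2.2.2.1]
      unfold ip
      rw [Complex.add_re]
      linarith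
    rw [hm, (hBD.1 _ _ _ _).1, Matrix.zero_mul, (hBD.2.1 _ _).2.2.1, Matrix.trace_zero,
      zero_add] at hz2
    have hy0 : y = 0 := by
      have e5 : nsq y 0 = 0 := by
        have := (h3 κ).2.2.2.1 y 0
        unfold ip at this
        rw [hyh.eq] at this
        have h' := congrArg Complex.re this
        simp only [Matrix.conjTranspose_zero, Matrix.zero_mul, Matrix.trace_zero, add_zero,
          Complex.ofReal_re] at h'
        rw [← h']
        exact hz2
      exact ((h3 κ).2.2.2.2.2.2.2.2 y 0 e5).1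
    rw [hm, hy0]
  · intro A hA
    constructor
    · obtain ⟨a0, b0, h0, _⟩ := h5 ι κ lev A hA
      obtain ⟨a, b, h, hmin⟩ := exists_min lev A ⟨a0, b0, h0⟩
      rw [rho_eq lev A a b h hmin]
      obtain ⟨ha, hb, hab⟩ := h
      have e1 : bd A (0 : Matrix κ κ ℂ) = a * b * bd 1 0 := by
        have k1 : bd A (0 : Matrix κ κ ℂ) * bd 1 0 = bd A 0 := by
          rw [(hBD.1 _ _ _ _).1]
          simp
        have k2 : a * bd (1 : Matrix ι ι ℂ) (0 : Matrix κ κ ℂ) = 0 := (hBL.2.1 a ha 1).1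
        rw [← k1, ← hab]
        unfold br
        rw [Matrix.sub_mul, Matrix.mul_assoc b a, k2, Matrix.mul_zero, sub_zero]
      have e2 : ∀ p q, A p q = (a * b) (Sum.inl p) (Sum.inl q) := by
        intro p q
        have k3 := congrFun (congrFun e1 (Sum.inl p)) (Sum.inl q)
        rw [Matrix.mul_apply, Fintype.sum_sum_type] at k3
        simpa [bd, Matrix.one_apply] using k3
      have e3 : ‖A‖ ^ 2 ≤ ‖a * b‖ ^ 2 := by
        rw [fsq, fsq, Fintype.sum_sum_type]
        have k4 : ∑ p, ∑ q, ‖A p q‖ ^ 2 ≤ ∑ p : ι, ∑ q, ‖(a * b) (Sum.inl p) q‖ ^ 2 := by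
          refine Finset.sum_le_sum fun p _ => ?_
          rw [Fintype.sum_sum_type]
          have k5 : ∑ q, ‖A p q‖ ^ 2 = ∑ q : ι, ‖(a * b) (Sum.inl p) (Sum.inl q)‖ ^ 2 :=
            Finset.sum_congr rfl fun q _ => by rw [e2 p q]
          rw [k5]
          refine le_add_of_nonneg_right ?_
          positivity
        refine le_trans k4 (le_add_of_nonneg_right ?_)
        positivity
      have e4 : ‖A‖ ≤ ‖a * b‖ := by
        exact (sq_le_sq₀ (norm_nonneg _) (norm_nonneg _)).mp e3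
      have e5 : ‖a * b‖ ≤ ‖a‖ * ‖b‖ := Matrix.frobenius_norm_mul a b
      have e6 : 2 * (‖a‖ * ‖b‖) ≤ nsq a b := by
        unfold nsq
        nlinarith [sq_nonneg (‖a‖ - ‖b‖)]
      linarith
    · by_cases hA0 : A = 0
      · rw [hA0, rho_zero h2 lev, norm_zero, mul_zero]
      · have hn : 0 < ‖A‖ := norm_pos_iff.mpr hA0
        have hc0 : ((‖A‖ : ℝ) : ℂ) ≠ 0 := by
          exact_mod_cast hn.ne'
        have hcn : ‖((‖A‖ : ℝ) : ℂ)‖ = ‖A‖ := by
          rw [Complex.norm_real, Real.norm_of_nonneg hn.le]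
        obtain ⟨a, b, h, hb⟩ := h5 ι κ lev ((((‖A‖ : ℝ) : ℂ))⁻¹ • A)
          (RT_smul lev A _ (inv_ne_zero hc0) hA)
        have hn1 : ‖(((‖A‖ : ℝ) : ℂ))⁻¹ • A‖ = 1 := by
          rw [norm_smul, norm_inv, hcn, inv_mul_cancel₀ hn.ne']
        rw [hn1] at hb
        have h7 := rho_le lev _ a b h
        have h8 : rho lev A = ‖A‖ * rho lev ((((‖A‖ : ℝ) : ℂ))⁻¹ • A) := by
          rw [rho_smul h2, norm_inv, hcn, ← mul_assoc, mul_inv_cancel₀ hn.ne', one_mul]
        rw [h8]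
        have h9 : rho lev ((((‖A‖ : ℝ) : ℂ))⁻¹ • A)
            ≤ 2 * ((Fintype.card ι + Fintype.card κ + 1 : ℕ) : ℝ) ^ 3 := by
          refine le_trans h7 (le_trans hb ?_)
          norm_num
          linarith
        calc ‖A‖ * rho lev ((((‖A‖ : ℝ) : ℂ))⁻¹ • A)
            ≤ ‖A‖ * (2 * ((Fintype.card ι + Fintype.card κ + 1 : ℕ) : ℝ) ^ 3) :=
              mul_le_mul_of_nonneg_left h9 hn.le
          _ = 2 * ((Fintype.card ι + Fintype.card κ + 1 : ℕ) : ℝ) ^ 3 * ‖A‖ := by ring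

end Pool.Agent.Helper32.NO
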